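import Pool.Agent.H86.Decon.FiltFilt

/-!
# The direct limit closure of a deconstructible class closed under filtrations

Let `C` be a deconstructible class of modules over an arbitrary ring which is closed under
filtrations (that is, every `C`-filtered module belongs to `C`).  Then the class of all direct
limits of modules from `C` is deconstructible.

The classes of this form are exactly the classes `Filt(S)` of all `S`-filtered modules, `S` a set of
modules: see `hasFiltration_filt`, `isoClosed_filtClass` and `deconstructible_filtClass` in
`Pool/Agent/H86/Decon/FiltFilt.lean` for the fact that `Filt(S)` is deconstructible and closed under
filtrations.

Proof. (1) For a set `S` of modules, the class of direct limits of modules isomorphic to members of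
`S` is deconstructible: a direct limit `N` of a direct system of members of `S` gives the
functor `F` of germs of homomorphisms from the members of `S` into the system.  Call a subfunctor
`G` of `F` pure if `q g ∈ G` implies `q g = q₀ g` for some `q₀` in `G`.  For pure subfunctors
`G ⊆ G'`, the images `N_G ⊆ N_G'` of their evaluations have quotient `N_G' / N_G` in the class: it
is a filtered colimit over the category of elements of `G' / G`.  Unions of chains of pure
subfunctors are pure and every pure subfunctor has a small proper pure extension.
(2) By a closure argument, small subsets of members of `C` lie in small submodules belonging to `C`.
(3) Hence every direct limit of modules from `C` is a direct limit of small modules from `C`, and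
(1) applies.
-/

universe u

namespace Pool.Agent.Results.MP_579b8c_al.FiltrationClosed

open Pool.Agent.H86.Decon

/-- **The direct limit closure of a deconstructible class closed under filtrations is
deconstructible.** -/
theorem result (R : Type u) [Ring R] (C : ModClass R) (hC : IsoClosed C) (hd : Deconstructible C)
    (hf : ∀ M, HasFiltration C M → C M) : Deconstructible (LimClass C) :=
  deconstructible_limClass_of_filtrationClosed hC hf hd

end Pool.Agent.Results.MP_579b8c_al.FiltrationClosed
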