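import Pool.Agent.H86.Decon.Final

/-!
# Deconstructibility of direct limit closures is equivalent to Vopenka's principle

The statement that the direct limit closure of every deconstructible class of modules (over any
ring) is deconstructible is equivalent to Vopenka's principle.  Here a class `C` is called
deconstructible if, for some infinite regular `κ`, every module in `C` is filtered by
`<κ`-presented modules from `C`; it is not assumed that `C` is closed under filtrations.

Vopenka's principle implies the statement: under it, there is a cardinal `κ` such that every subset
of cardinality `<κ` of a member `M` of `C` lies in a submodule of `M` of cardinality `<κ` which
belongs to `C`; hence every direct limit of members of `C` is a direct limit of members of `C` of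
cardinality `<κ`, and the limit closure of a set of modules is deconstructible.

If Vopenka's principle fails, let `X α` (`α` an ordinal) be structures in a language `L` without
elementary embeddings `X α → X β`, `α ≠ β`.  Let `W α` be the group of formal combinations of
infinite sequences in `X α`, with the operators of reindexing and of projection to the sequences
satisfying a given formula.  Then every nonzero homomorphism `W α → W β` yields an elementary
embedding `X α → X β` and has an image of cardinality at least `|X α|`.  Add one more operator `x` and
let `T n U = U ⊗ ℤ[x]/(x^n)`.  Let `C` consist of the modules `T 2 U` with `U` small, and of the
modules `T 3 (W α) ⊕ T 1 (W α)`.  Since there is an exact sequence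
`0 → T 2 (W α) → T 3 (W α) ⊕ T 1 (W α) → T 2 (W α) → 0`, the class `C` is deconstructible.  The
modules `T 1 (W α)` are direct limits of members of `C`, but if `X α` is large, then `T 1 (W α)` has
no nonzero small submodule which is a direct limit of members of `C`.
-/

universe u

namespace Pool.Agent.Results.MP_579b8c_al.VopenkaEquivalence

open Pool.Agent.H86.Decon

/-- **The direct limit closure of every deconstructible class of modules is deconstructible if and
only if Vopenka's principle holds.** -/
theorem result :
    (∀ (R : Type u) [Ring R] (C : ModClass R), IsoClosed C → Deconstructible C →
      Deconstructible (LimClass C)) ↔ Vopenka.{u} :=
  deconstructible_iff_vopenka

end Pool.Agent.Results.MP_579b8c_al.VopenkaEquivalence
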